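import Mathlib

open MeasureTheory Filter Topology
open scoped ENNReal

namespace Pool.Agent.Lib.MP_02be1f_lc

/-- Configurations: the full shift `{0,1}^ℤ`, with `false = 0` and `true = 1`. It carries the
product topology and the product (= Borel) sigma-algebra. -/
abbrev Config : Type := ℤ → Bool

/-- The shift map `σ(x)_i = x_{i+1}`. -/
def shift (x : Config) : Config := fun i => x (i + 1)

/-- The two-neighbour XOR cellular automaton `F(x)_i = x_i + x_{i+1} (mod 2)`. -/
def F (x : Config) : Config := fun i => xor (x i) (x (i + 1))

/-- The cylinder set `[w]` of a finite word: the configurations `x` with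
`x_0 x_1 ... x_{|w|-1} = w`. -/
def cyl (w : List Bool) : Set Config :=
  {x | ∀ (i : ℕ) (h : i < w.length), x (i : ℤ) = w[i]}

/-- A measure `ν` on configurations is computable: there is an algorithm (a total computable
function) that, given a word `w` and a precision `k`, outputs a rational number `a / (b + 1)`
(as the pair `(a, b)` of natural numbers) within `2^(-k)` of `ν([w])`. -/
def IsComputableMeasure (ν : Measure Config) : Prop :=
  ∃ f : List Bool → ℕ → ℕ × ℕ, Computable₂ f ∧
    ∀ w k, |((f w k).1 : ℝ) / ((f w k).2 + 1) - (ν (cyl w)).toReal| ≤ (1 / 2) ^ k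

/-- The limit language `L_μ(F)` of the XOR automaton: the words `w` whose probability
`(F^n μ)([w])` does not tend to `0` as `n → ∞`. -/
def limitLanguage (μ : Measure Config) : Set (List Bool) :=
  {w | ¬ Tendsto (fun n : ℕ => (μ.map (F^[n])) (cyl w)) atTop (𝓝 0)}

theorem measurable_F : Measurable F := by
  refine measurable_pi_lambda _ fun i => ?_
  have h : Measurable (fun p : Bool × Bool => xor p.1 p.2) := measurable_of_finite _
  have h2 : Measurable (fun x : Config => (x i, x (i+1))) := by fun_prop
  exact h.comp h2

end Pool.Agent.Lib.MP_02be1f_lc
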