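import Mathlib
import Pool.Agent.Lib.MP_02be1f_lc.Defs

open MeasureTheory Filter Topology
open scoped ENNReal

namespace Pool.Agent.Lib.MP_02be1f_lc

theorem measurable_shift : Measurable shift := by
  unfold shift; fun_prop

theorem measurableSet_cyl (w : List Bool) : MeasurableSet (cyl w) := by
  unfold cyl
  have : {x : Config | ∀ (i : ℕ) (h : i < w.length), x (i : ℤ) = w[i]} =
      ⋂ (i : ℕ), ⋂ (h : i < w.length), (fun x : Config => x (i : ℤ)) ⁻¹' {w[i]} := by
    ext x; simp
  rw [this]
  refine MeasurableSet.iInter fun i => MeasurableSet.iInter fun h => ?_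
  exact (measurable_pi_apply _) (measurableSet_singleton _)

/-- fair coin -/
noncomputable def coin : Measure Bool :=
  (2⁻¹ : ℝ≥0∞) • Measure.dirac false + (2⁻¹ : ℝ≥0∞) • Measure.dirac true

instance : IsProbabilityMeasure coin := by
  constructor
  simp [coin, ENNReal.inv_two_add_inv_two]

theorem coin_singleton (b : Bool) : coin {b} = 2⁻¹ := by
  cases b <;> simp [coin]

theorem coin_map_not : coin.map not = coin := by
  have hm : Measurable not := measurable_of_finite _
  unfold coin
  rw [Measure.map_add _ _ hm, Measure.map_smul, Measure.map_smul, Measure.map_dirac' hm,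
    Measure.map_dirac' hm, add_comm]
  rfl

/-- uniform measure on `N`-periodic configurations (`N = 0`: the uniform Bernoulli measure) -/
noncomputable def lam (N : ℕ) : Measure Config :=
  (Measure.infinitePi (fun _ : ZMod N => coin)).map (fun ω i => ω (i : ZMod N))

theorem measurable_periodize (N : ℕ) :
    Measurable (fun (ω : ZMod N → Bool) (i : ℤ) => ω (i : ZMod N)) := by
  fun_prop

instance (N : ℕ) : IsProbabilityMeasure (lam N) :=
  Measure.isProbabilityMeasure_map (measurable_periodize N).aemeasurable

theorem lam_shift (N : ℕ) : (lam N).map shift = lam N := by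
  unfold lam
  rw [Measure.map_map measurable_shift (measurable_periodize N)]
  have h1 : (shift ∘ fun (ω : ZMod N → Bool) (i : ℤ) => ω (i : ZMod N)) =
      (fun (ω : ZMod N → Bool) (i : ℤ) => ω (i : ZMod N)) ∘
        (MeasurableEquiv.piCongrLeft (fun _ : ZMod N => Bool) (Equiv.subRight (1 : ZMod N))) := by
    funext ω i
    simp only [Function.comp, shift]
    rw [MeasurableEquiv.coe_piCongrLeft]
    have := Equiv.piCongrLeft_apply_apply (fun _ : ZMod N => Bool) (Equiv.subRight (1 : ZMod N)) ω
      ((i : ZMod N) + 1)
    simp at this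
    rw [this]
    push_cast
    rfl
  rw [h1, ← Measure.map_map (measurable_periodize N) (MeasurableEquiv.measurable _)]
  congr 1
  exact Measure.infinitePi_map_piCongrLeft (fun _ : ZMod N => coin) (Equiv.subRight (1 : ZMod N))

/-- the uniform Bernoulli measure -/
theorem lam_zero_eq : lam 0 = Measure.infinitePi (fun _ : ℤ => coin) := by
  have h : (fun (ω : ZMod 0 → Bool) (i : ℤ) => ω (i : ZMod 0)) = id := by
    funext ω i
    exact congrArg ω (Int.cast_id (n := i))
  show (Measure.infinitePi (fun _ : ZMod 0 => coin)).map (fun ω i => ω (i : ZMod 0)) = _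
  rw [show (Measure.infinitePi (fun _ : ZMod 0 => coin)).map (fun ω i => ω (i : ZMod 0)) =
    (Measure.infinitePi (fun _ : ZMod 0 => coin)).map id from congrArg
      (fun g => (Measure.infinitePi (fun _ : ZMod 0 => coin)).map g) h]
  exact Measure.map_id

/-- flip one coordinate -/
def flip (a : ℤ) (x : Config) : Config := fun i => (if i = a then not else id) (x i)

theorem measurable_flip (a : ℤ) : Measurable (flip a) := by
  unfold flip
  refine measurable_pi_lambda _ fun i => ?_
  split_ifs
  · exact (measurable_of_finite not).comp (measurable_pi_apply i)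
  · exact measurable_pi_apply i

theorem infinitePi_flip (a : ℤ) :
    (Measure.infinitePi (fun _ : ℤ => coin)).map (flip a) = Measure.infinitePi (fun _ : ℤ => coin) := by
  have := Measure.infinitePi_map_pi (fun _ : ℤ => coin) (f := fun i => if i = a then not else id)
    (fun i => by split_ifs <;> exact measurable_of_finite _)
  unfold flip
  rw [this]
  congr 1
  funext i
  split_ifs
  · exact coin_map_not
  · exact Measure.map_id

theorem infinitePi_F :
    (Measure.infinitePi (fun _ : ℤ => coin)).map F = Measure.infinitePi (fun _ : ℤ => coin) := by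
  classical
  refine Measure.eq_infinitePi _ fun s t ht => ?_
  rw [Measure.map_apply measurable_F (MeasurableSet.pi s.countable_toSet (fun i _ => ht i))]
  induction s using Finset.induction_on_max with
  | empty => simp
  | insert a s hs ih =>
    have hnot : a ∉ s := fun h => lt_irrefl _ (hs a h)
    rw [Finset.prod_insert hnot, ← ih]
    set m := Measure.infinitePi (fun _ : ℤ => coin) with hm
    set A := F ⁻¹' ((s : Set ℤ).pi t) with hA
    have hAm : MeasurableSet A :=
      measurable_F (MeasurableSet.pi s.countable_toSet (fun i _ => ht i))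
    -- the sets where F x a = b
    let B : Bool → Set Config := fun b => {x | F x a = b}
    have hBm : ∀ b, MeasurableSet (B b) := fun b =>
      ((measurable_pi_apply a).comp measurable_F) (measurableSet_singleton b)
    have hflip : ∀ b, m (A ∩ B b) = m (A ∩ B (!b)) := by
      intro b
      conv_lhs => rw [hm, ← infinitePi_flip (a+1)]
      rw [Measure.map_apply (measurable_flip _) (hAm.inter (hBm b)), ← hm]
      congr 1
      ext x
      simp only [Set.mem_inter_iff, Set.mem_preimage, Set.mem_ofPred_eq, A, B, Set.mem_pi,
        Finset.mem_coe]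
      have h1 : ∀ i ∈ s, F (flip (a+1) x) i = F x i := by
        intro i hi
        have := hs i hi
        have h2 : i ≠ a + 1 := by omega
        have h3 : i ≠ a := by omega
        simp [F, flip, h2, h3]
      have h2 : F (flip (a+1) x) a = !(F x a) := by
        simp [F, flip]
      rw [h2]
      constructor
      · rintro ⟨h3, h4⟩
        refine ⟨fun i hi => by rw [← h1 i hi]; exact h3 i hi, by rw [← h4]; simp⟩
      · rintro ⟨h3, h4⟩
        refine ⟨fun i hi => by rw [h1 i hi]; exact h3 i hi, by rw [h4]; simp⟩
    have hsum : m A = m (A ∩ B true) + m (A ∩ B false) := by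
      rw [← measure_union]
      · congr 1
        ext x
        simp only [B, Set.mem_union, Set.mem_inter_iff, Set.mem_ofPred_eq]
        cases F x a <;> simp
      · rw [Set.disjoint_left]
        rintro x ⟨_, h1⟩ ⟨_, h2⟩
        simp only [B, Set.mem_ofPred_eq] at h1 h2
        rw [h1] at h2; simp at h2
      · exact hAm.inter (hBm _)
    have hhalf : ∀ b, m (A ∩ B b) = 2⁻¹ * m A := by
      intro b
      have h1 : m A = 2 * m (A ∩ B b) := by
        rw [hsum, two_mul]
        cases b
        · rw [hflip true]; simp
        · rw [hflip false]; simp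
      rw [h1, ← mul_assoc, ENNReal.inv_mul_cancel (by simp) (by simp), one_mul]
    have hset : F ⁻¹' ((((insert a s : Finset ℤ)) : Set ℤ).pi t) =
        A ∩ {x | F x a ∈ t a} := by
      ext x
      simp only [A, Finset.coe_insert, Set.insert_pi, Set.preimage_inter, Set.mem_inter_iff,
        Set.mem_preimage, Set.mem_ofPred_eq]
      tauto
    rw [hset]
    have hcases : t a = ∅ ∨ t a = {false} ∨ t a = {true} ∨ t a = Set.univ := by
      by_cases h1 : false ∈ t a <;> by_cases h2 : true ∈ t a
      · right; right; right; ext b; cases b <;> simp [h1, h2]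
      · right; left; ext b; cases b <;> simp [h1, h2]
      · right; right; left; ext b; cases b <;> simp [h1, h2]
      · left; ext b; cases b <;> simp [h1, h2]
    rcases hcases with h | h | h | h
    · rw [h]; simp
    · rw [h, coin_singleton]; exact hhalf false
    · rw [h, coin_singleton]; exact hhalf true
    · rw [h, measure_univ]; simp

theorem lam_zero_F : (lam 0).map F = lam 0 := by
  rw [lam_zero_eq, infinitePi_F]

/-- `F` iterated `2^T` times is `x ↦ x + σ^{2^T} x` -/
theorem F_iter_two_pow (T : ℕ) (x : Config) (i : ℤ) :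
    (F^[2 ^ T]) x i = xor (x i) (x (i + 2 ^ T)) := by
  induction T generalizing x i with
  | zero => simp [F]
  | succ T ih =>
    rw [pow_succ, mul_two, Function.iterate_add_apply, ih, ih, ih]
    rw [show i + 2 ^ T + 2 ^ T = i + 2 ^ (T + 1) by ring]
    cases x i <;> cases x (i + 2 ^ T) <;> cases x (i + 2 ^ (T + 1)) <;> rfl

/-- the zero configuration -/
def zero : Config := fun _ => false

theorem F_zero : F zero = zero := by
  funext i; simp [F, zero]

theorem F_iter_zero (n : ℕ) : (F^[n]) zero = zero := Function.iterate_fixed F_zero n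

theorem F_iter_periodic {T n : ℕ} (h : 2 ^ T ≤ n) (ω : ZMod (2 ^ T) → Bool) :
    (F^[n]) (fun i : ℤ => ω (i : ZMod (2 ^ T))) = zero := by
  obtain ⟨k, rfl⟩ := Nat.exists_eq_add_of_le h
  rw [add_comm, Function.iterate_add_apply]
  have : (F^[2 ^ T]) (fun i : ℤ => ω (i : ZMod (2 ^ T))) = zero := by
    funext i
    rw [F_iter_two_pow]
    have : ((i + 2 ^ T : ℤ) : ZMod (2 ^ T)) = (i : ZMod (2 ^ T)) := by
      push_cast
      have h0 : ((2 : ZMod (2 ^ T)) ^ T) = 0 := by
        have := ZMod.natCast_self (2 ^ T)
        push_cast at this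
        exact this
      rw [h0, add_zero]
    rw [this]
    simp [zero]
  rw [this, F_iter_zero]

theorem lam_two_pow_F {T n : ℕ} (h : 2 ^ T ≤ n) :
    (lam (2 ^ T)).map (F^[n]) = Measure.dirac zero := by
  unfold lam
  rw [Measure.map_map (measurable_F.iterate n) (measurable_periodize _)]
  have : (F^[n] ∘ fun (ω : ZMod (2 ^ T) → Bool) (i : ℤ) => ω (i : ZMod (2 ^ T))) =
      fun _ => zero := by
    funext ω
    exact F_iter_periodic h ω
  rw [this, Measure.map_const]
  simp


/-- the word `w` is `N`-periodic -/
def Per (N : ℕ) (w : List Bool) : Prop := ∀ i < w.length, ∀ j < w.length,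
  ((i : ℤ) : ZMod N) = ((j : ℤ) : ZMod N) → w[i]? = w[j]?

theorem lam_cyl_aux (N : ℕ) (w : List Bool) :
    lam N (cyl w) = Measure.infinitePi (fun _ : ZMod N => coin)
      {ω | ∀ (i : ℕ) (h : i < w.length), ω ((i : ℤ) : ZMod N) = w[i]} := by
  unfold lam
  rw [Measure.map_apply (measurable_periodize N) (measurableSet_cyl w)]
  rfl

theorem lam_cyl (N : ℕ) (w : List Bool) :
    (Per N w → lam N (cyl w) =
      2⁻¹ ^ ((Finset.range w.length).image (fun i : ℕ => ((i : ℤ) : ZMod N))).card) ∧
    (¬ Per N w → lam N (cyl w) = 0) := by
  classical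
  rw [lam_cyl_aux]
  let s := (Finset.range w.length).image (fun i : ℕ => ((i : ℤ) : ZMod N))
  let t : ZMod N → Set Bool := fun z =>
    {b | ∀ (i : ℕ) (h : i < w.length), ((i : ℤ) : ZMod N) = z → w[i] = b}
  have hset : {ω : ZMod N → Bool | ∀ (i : ℕ) (h : i < w.length), ω ((i : ℤ) : ZMod N) = w[i]} =
      (s : Set (ZMod N)).pi t := by
    ext ω
    simp only [Set.mem_ofPred_eq, Set.mem_pi, Finset.mem_coe, s, t, Finset.mem_image,
      Finset.mem_range]
    constructor
    · rintro h z ⟨i, hi, rfl⟩ j hj hij
      rw [← hij]
      exact (h j hj).symm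
    · intro h i hi
      exact (h _ ⟨i, hi, rfl⟩ i hi rfl).symm
  rw [hset, Measure.infinitePi_pi _ (fun i _ => (Set.toFinite _).measurableSet)]
  constructor
  · intro hper
    have : ∀ z ∈ s, coin (t z) = 2⁻¹ := by
      intro z hz
      simp only [s, Finset.mem_image, Finset.mem_range] at hz
      obtain ⟨i, hi, rfl⟩ := hz
      have : t ((i : ℤ) : ZMod N) = {w[i]} := by
        ext b
        simp only [t, Set.mem_ofPred_eq, Set.mem_singleton_iff]
        constructor
        · intro h
          exact (h i hi rfl).symm
        · rintro rfl j hj hij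
          have := hper j hj i hi hij
          simpa [hj, hi] using this
      rw [this, coin_singleton]
    rw [Finset.prod_congr rfl this, Finset.prod_const]
  · intro hper
    simp only [Per, not_forall] at hper
    obtain ⟨i, hi, j, hj, hij, hne⟩ := hper
    apply Finset.prod_eq_zero (i := ((i : ℤ) : ZMod N))
    · simp only [s, Finset.mem_image, Finset.mem_range]
      exact ⟨i, hi, rfl⟩
    · have : t ((i : ℤ) : ZMod N) = ∅ := by
        ext b
        simp only [t, Set.mem_ofPred_eq, Set.mem_empty_iff_false, iff_false]
        intro h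
        apply hne
        have h1 := h i hi rfl
        have h2 := h j hj hij.symm
        simp [hi, hj, h1, h2]
      rw [this]; simp

/-- words shorter than the period are equidistributed -/
theorem lam_cyl_short (N : ℕ) (w : List Bool) (h : N = 0 ∨ w.length ≤ N) :
    lam N (cyl w) = 2⁻¹ ^ w.length := by
  have hinj : ∀ i < w.length, ∀ j < w.length,
      ((i : ℤ) : ZMod N) = ((j : ℤ) : ZMod N) → i = j := by
    intro i hi j hj hij
    rcases h with rfl | h
    · have : (i : ℤ) = (j : ℤ) := by
        have h1 : ((i : ℤ) : ZMod 0) = (i : ℤ) := Int.cast_id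
        have h2 : ((j : ℤ) : ZMod 0) = (j : ℤ) := Int.cast_id
        rw [h1, h2] at hij
        exact hij
      exact_mod_cast this
    · have hN : i < N := by omega
      have hN' : j < N := by omega
      have h1 : ((i : ℤ) : ZMod N) = ((i : ℕ) : ZMod N) := by push_cast; rfl
      have h2 : ((j : ℤ) : ZMod N) = ((j : ℕ) : ZMod N) := by push_cast; rfl
      rw [h1, h2, ZMod.natCast_eq_natCast_iff'] at hij
      rwa [Nat.mod_eq_of_lt hN, Nat.mod_eq_of_lt hN'] at hij
  have hper : Per N w := by
    intro i hi j hj hij
    rw [hinj i hi j hj hij]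
  rw [(lam_cyl N w).1 hper]
  congr 1
  rw [Finset.card_image_of_injOn, Finset.card_range]
  intro i hi j hj hij
  simp at hi hj
  exact hinj i hi j hj hij

/-- words longer than the period -/
theorem lam_cyl_long (N : ℕ) (w : List Bool) (hN : 0 < N) (h : N ≤ w.length) :
    (Per N w → lam N (cyl w) = 2⁻¹ ^ N) := by
  intro hper
  rw [(lam_cyl N w).1 hper]
  congr 1
  have : NeZero N := ⟨by omega⟩
  have : (Finset.range w.length).image (fun i : ℕ => ((i : ℤ) : ZMod N)) = Finset.univ := by
    ext z
    simp only [Finset.mem_image, Finset.mem_range, Finset.mem_univ, iff_true]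
    refine ⟨z.val, lt_of_lt_of_le (ZMod.val_lt z) h, ?_⟩
    push_cast
    simp
  rw [this, Finset.card_univ, ZMod.card]

theorem per_iff (N : ℕ) (hN : 0 < N) (w : List Bool) :
    Per N w ↔ ∀ i < w.length, i + N < w.length → w[i]? = w[i + N]? := by
  constructor
  · intro h i hi hi2
    apply h i hi (i + N) hi2
    push_cast
    simp
  · intro h
    -- reduce to residues
    have key : ∀ k i, i + k * N < w.length → w[i]? = w[i + k * N]? := by
      intro k
      induction k with
      | zero => intro i _; simp
      | succ k ih =>
        intro i hi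
        have h1 : i + k * N < w.length := by
          have : i + k * N ≤ i + (k + 1) * N := by
            have : k * N ≤ (k + 1) * N := Nat.mul_le_mul_right _ (by omega)
            omega
          omega
        have h2 := ih i h1
        rw [h2]
        have h3 : i + (k + 1) * N = (i + k * N) + N := by ring
        rw [h3]
        exact h _ h1 (by rw [← h3]; exact hi)
    have key2 : ∀ i < w.length, w[i]? = w[i % N]? := by
      intro i hi
      have h1 : i % N + (i / N) * N = i := by
        rw [mul_comm]; exact Nat.mod_add_div i N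
      have := key (i / N) (i % N) (by rw [h1]; exact hi)
      rw [h1] at this
      exact this.symm
    intro i hi j hj hij
    have h1 : ((i : ℤ) : ZMod N) = ((i : ℕ) : ZMod N) := by push_cast; rfl
    have h2 : ((j : ℤ) : ZMod N) = ((j : ℕ) : ZMod N) := by push_cast; rfl
    rw [h1, h2, ZMod.natCast_eq_natCast_iff'] at hij
    rw [key2 i hi, key2 j hj, hij]

end Pool.Agent.Lib.MP_02be1f_lc
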