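import Mathlib
import Pool.Agent.Lib.MP_02be1f_lc.Basic

open MeasureTheory Filter Topology
open scoped ENNReal

namespace Pool.Agent.Lib.MP_02be1f_lc

open Nat.Partrec (Code)

/-! ### mixtures -/

/-- weights `3 / 4^(j+1)`, summing to `1` -/
noncomputable def wt (j : ℕ) : ℝ := 3 / 4 ^ (j + 1)

theorem wt_pos (j : ℕ) : 0 < wt j := by unfold wt; positivity

theorem hasSum_wt : HasSum wt 1 := by
  have h := (hasSum_geometric_of_lt_one (r := (1/4 : ℝ)) (by norm_num) (by norm_num)).mul_left (3/4)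
  have h2 : (fun j : ℕ => (3/4 : ℝ) * (1/4) ^ j) = wt := by
    funext j; unfold wt; rw [one_div_pow, pow_succ]; field_simp
  rw [h2] at h
  have h3 : (3 / 4 * (1 - 1 / 4)⁻¹ : ℝ) = 1 := by norm_num
  rwa [h3] at h

/-- mixture -/
noncomputable def mix (m : ℕ → Measure Config) : Measure Config :=
  Measure.sum fun j => ENNReal.ofReal (wt j) • m j

theorem mix_apply (m : ℕ → Measure Config) {A : Set Config} (hA : MeasurableSet A) :
    mix m A = ∑' j, ENNReal.ofReal (wt j) * m j A := by
  unfold mix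
  rw [Measure.sum_apply _ hA]
  rfl

theorem tsum_ofReal_wt : ∑' j, ENNReal.ofReal (wt j) = 1 := by
  rw [← ENNReal.ofReal_tsum_of_nonneg (fun j => (wt_pos j).le) hasSum_wt.summable,
    hasSum_wt.tsum_eq]
  simp

instance mix_prob (m : ℕ → Measure Config) [∀ j, IsProbabilityMeasure (m j)] :
    IsProbabilityMeasure (mix m) := by
  constructor
  rw [mix_apply m MeasurableSet.univ]
  simp [tsum_ofReal_wt]

theorem mix_map (m : ℕ → Measure Config) {g : Config → Config} (hg : Measurable g) :
    (mix m).map g = mix (fun j => (m j).map g) := by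
  ext A hA
  rw [Measure.map_apply hg hA, mix_apply _ (hg hA), mix_apply _ hA]
  congr 1
  funext j
  rw [Measure.map_apply hg hA]

theorem mix_shift (m : ℕ → Measure Config) (h : ∀ j, (m j).map shift = m j) :
    (mix m).map shift = mix m := by
  rw [mix_map m measurable_shift]
  congr 1
  funext j
  exact h j

theorem summable_wt_mul (a : ℕ → ℝ) (h0 : ∀ j, 0 ≤ a j) (h1 : ∀ j, a j ≤ 1) :
    Summable (fun j => wt j * a j) :=
  Summable.of_nonneg_of_le (fun j => mul_nonneg (wt_pos j).le (h0 j))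
    (fun j => by nlinarith [wt_pos j, h1 j]) hasSum_wt.summable

theorem measure_toReal_nonneg (μ : Measure Config) (A : Set Config) : 0 ≤ (μ A).toReal :=
  ENNReal.toReal_nonneg

theorem measure_toReal_le_one (μ : Measure Config) [IsProbabilityMeasure μ] (A : Set Config) :
    (μ A).toReal ≤ 1 := by
  have := prob_le_one (μ := μ) (s := A)
  have h2 := ENNReal.toReal_mono (by simp) this
  simpa using h2

theorem mix_toReal (m : ℕ → Measure Config) [∀ j, IsProbabilityMeasure (m j)]
    {A : Set Config} (hA : MeasurableSet A) :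
    ((mix m) A).toReal = ∑' j, wt j * (m j A).toReal := by
  rw [mix_apply m hA, ENNReal.tsum_toReal_eq]
  · congr 1
    funext j
    rw [ENNReal.toReal_mul, ENNReal.toReal_ofReal (wt_pos j).le]
  · intro j
    exact ENNReal.mul_ne_top ENNReal.ofReal_ne_top (measure_ne_top _ _)

/-- setwise convergence of mixtures of eventually stationary measures -/
theorem mix_tendsto (m : ℕ → ℕ → Measure Config) (m' : ℕ → Measure Config)
    [∀ n j, IsProbabilityMeasure (m n j)] [∀ j, IsProbabilityMeasure (m' j)]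
    (h : ∀ j, ∀ᶠ n in atTop, m n j = m' j) {A : Set Config} (hA : MeasurableSet A) :
    Tendsto (fun n => ((mix (m n)) A).toReal) atTop (𝓝 ((mix m') A).toReal) := by
  rw [mix_toReal m' hA]
  have : (fun n => ((mix (m n)) A).toReal) = fun n => ∑' j, wt j * (m n j A).toReal := by
    funext n
    exact mix_toReal (m n) hA
  rw [this]
  apply tendsto_tsum_of_dominated_convergence (bound := wt) hasSum_wt.summable
  · intro j
    apply tendsto_const_nhds.congr'
    filter_upwards [h j] with n hn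
    rw [hn]
  · filter_upwards with n j
    rw [Real.norm_of_nonneg (mul_nonneg (wt_pos j).le (measure_toReal_nonneg _ _))]
    have h1 := measure_toReal_le_one (m n j) A
    nlinarith [wt_pos j]

/-- weak convergence in `ProbabilityMeasure` from setwise convergence -/
theorem tendsto_probabilityMeasure {μs : ℕ → ProbabilityMeasure Config}
    {μ : ProbabilityMeasure Config}
    (h : ∀ A, MeasurableSet A → Tendsto (fun n => ((μs n : Measure Config) A).toReal) atTop
      (𝓝 ((μ : Measure Config) A).toReal)) :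
    Tendsto μs atTop (𝓝 μ) := by
  apply tendsto_of_forall_isOpen_le_liminf
  intro G hG
  have h1 : Tendsto (fun n => (μs n) G) atTop (𝓝 (μ G)) := by
    rw [← NNReal.tendsto_coe]
    exact h G hG.measurableSet
  rw [h1.liminf_eq]

/-! ### computability of mixtures -/

theorem primrec₂_pow : Primrec₂ ((· ^ ·) : ℕ → ℕ → ℕ) :=
  Primrec₂.unpaired'.1 Nat.Primrec.pow

/-- accumulate `∑_{j<k} wt j * a_j / (b_j+1)` as a fraction -/
def acc (g : ℕ → ℕ × ℕ) (k : ℕ) : ℕ × ℕ :=
  Nat.rec (0, 0) (fun j p =>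
    (p.1 * (4 ^ (j + 1) * ((g j).2 + 1)) + 3 * (g j).1 * (p.2 + 1),
      (p.2 + 1) * (4 ^ (j + 1) * ((g j).2 + 1)) - 1)) k

theorem acc_eq (g : ℕ → ℕ × ℕ) (k : ℕ) :
    ((acc g k).1 : ℝ) / ((acc g k).2 + 1) =
      ∑ j ∈ Finset.range k, wt j * ((g j).1 / ((g j).2 + 1)) := by
  induction k with
  | zero => simp [acc]
  | succ k ih =>
    rw [Finset.sum_range_succ, ← ih]
    set p := acc g k with hp
    have h1 : acc g (k + 1) = (p.1 * (4 ^ (k + 1) * ((g k).2 + 1)) + 3 * (g k).1 * (p.2 + 1),
      (p.2 + 1) * (4 ^ (k + 1) * ((g k).2 + 1)) - 1) := rfl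
    rw [h1]
    have h2 : 1 ≤ (p.2 + 1) * (4 ^ (k + 1) * ((g k).2 + 1)) := Nat.succ_le_of_lt (by positivity)
    simp only
    rw [Nat.cast_sub h2]
    push_cast
    unfold wt
    have h3 : ((p.2 : ℝ) + 1) ≠ 0 := by positivity
    have h4 : (((g k).2 : ℝ) + 1) ≠ 0 := by positivity
    rw [sub_add_cancel]
    field_simp

theorem mix_computable (m : ℕ → Measure Config) [∀ j, IsProbabilityMeasure (m j)]
    (g : List Bool → ℕ → ℕ × ℕ) (hg : Computable₂ g)
    (h : ∀ w j, (m j (cyl w)).toReal = (g w j).1 / ((g w j).2 + 1)) :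
    IsComputableMeasure (mix m) := by
  refine ⟨fun w k => acc (g w) k, ?_, ?_⟩
  · unfold acc
    have hstep : Computable₂ (fun (a : List Bool × ℕ) (q : ℕ × (ℕ × ℕ)) =>
        (q.2.1 * (4 ^ (q.1 + 1) * ((g a.1 q.1).2 + 1)) + 3 * (g a.1 q.1).1 * (q.2.2 + 1),
          (q.2.2 + 1) * (4 ^ (q.1 + 1) * ((g a.1 q.1).2 + 1)) - 1)) := by
      have hg' : Computable (fun r : (List Bool × ℕ) × (ℕ × (ℕ × ℕ)) => g r.1.1 r.2.1) :=
        Computable₂.comp hg (Computable.fst.comp Computable.fst)
          (Computable.fst.comp Computable.snd)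
      have hprim : Primrec (fun r : (ℕ × ℕ) × (ℕ × (ℕ × ℕ)) =>
          (r.2.2.1 * (4 ^ (r.2.1 + 1) * (r.1.2 + 1)) + 3 * r.1.1 * (r.2.2.2 + 1),
          (r.2.2.2 + 1) * (4 ^ (r.2.1 + 1) * (r.1.2 + 1)) - 1)) := by
        have p1 : Primrec (fun r : (ℕ × ℕ) × (ℕ × (ℕ × ℕ)) => r.2.2.1) :=
          Primrec.fst.comp (Primrec.snd.comp Primrec.snd)
        have p2 : Primrec (fun r : (ℕ × ℕ) × (ℕ × (ℕ × ℕ)) => r.2.2.2 + 1) :=
          Primrec.succ.comp (Primrec.snd.comp (Primrec.snd.comp Primrec.snd))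
        have p3 : Primrec (fun r : (ℕ × ℕ) × (ℕ × (ℕ × ℕ)) => 4 ^ (r.2.1 + 1) * (r.1.2 + 1)) :=
          Primrec.nat_mul.comp
            (primrec₂_pow.comp (Primrec.const 4)
              (Primrec.succ.comp (Primrec.fst.comp Primrec.snd)))
            (Primrec.succ.comp (Primrec.snd.comp Primrec.fst))
        have p4 : Primrec (fun r : (ℕ × ℕ) × (ℕ × (ℕ × ℕ)) => 3 * r.1.1) :=
          Primrec.nat_mul.comp (Primrec.const 3) (Primrec.fst.comp Primrec.fst)
        exact Primrec.pair
          (Primrec.nat_add.comp (Primrec.nat_mul.comp p1 p3) (Primrec.nat_mul.comp p4 p2))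
          (Primrec.nat_sub.comp (Primrec.nat_mul.comp p2 p3) (Primrec.const 1))
      exact (hprim.to_comp.comp (Computable.pair hg' Computable.snd)).to₂
    exact (Computable.nat_rec (f := fun a : List Bool × ℕ => a.2) (g := fun _ => (0, 0))
      Computable.snd (Computable.const (0, 0)) hstep).to₂
  · intro w k
    rw [acc_eq, mix_toReal m (measurableSet_cyl w)]
    have hs : Summable (fun j => wt j * (m j (cyl w)).toReal) :=
      summable_wt_mul _ (fun j => measure_toReal_nonneg _ _) (fun j => measure_toReal_le_one _ _)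
    rw [← hs.sum_add_tsum_nat_add k]
    have h1 : ∑ j ∈ Finset.range k, wt j * ((g w j).1 / ((g w j).2 + 1) : ℝ) =
        ∑ j ∈ Finset.range k, wt j * (m j (cyl w)).toReal := by
      apply Finset.sum_congr rfl
      intro j _
      rw [h w j]
    rw [h1, sub_add_cancel_left, abs_neg]
    have hnn : 0 ≤ ∑' j, wt (j + k) * (m (j + k) (cyl w)).toReal :=
      tsum_nonneg fun j => mul_nonneg (wt_pos _).le (measure_toReal_nonneg _ _)
    rw [abs_of_nonneg hnn]
    have hle : ∑' j, wt (j + k) * (m (j + k) (cyl w)).toReal ≤ ∑' j, wt (j + k) := by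
      apply Summable.tsum_le_tsum
      · intro j
        have := measure_toReal_le_one (m (j + k)) (cyl w)
        nlinarith [wt_pos (j + k)]
      · exact (summable_nat_add_iff k).2 hs
      · exact (summable_nat_add_iff k).2 hasSum_wt.summable
    have htail : ∑' j, wt (j + k) = (1/4 : ℝ) ^ k := by
      have : (fun j => wt (j + k)) = fun j => (1/4 : ℝ) ^ k * wt j := by
        funext j
        unfold wt
        rw [show j + k + 1 = k + (j + 1) by ring, pow_add, one_div_pow]
        field_simp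
      rw [this, tsum_mul_left, hasSum_wt.tsum_eq, mul_one]
    rw [htail] at hle
    calc _ ≤ (1/4 : ℝ) ^ k := hle
      _ ≤ (1/2 : ℝ) ^ k := by gcongr <;> norm_num

end Pool.Agent.Lib.MP_02be1f_lc
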