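import Mathlib
import Pool.Agent.Lib.MP_02be1f_lc.Mix

open MeasureTheory Filter Topology
open scoped ENNReal

namespace Pool.Agent.Lib.MP_02be1f_lc

open Nat.Partrec (Code)

/-- program number `j` halts on input `0` within `t` steps -/
def H (j t : ℕ) : Prop := (Code.evaln t (Denumerable.ofNat Code j) 0).isSome = true

instance : DecidableRel H := fun j t =>
  inferInstanceAs (Decidable ((Code.evaln t (Denumerable.ofNat Code j) 0).isSome = true))

theorem H_mono {j s t : ℕ} (hst : s ≤ t) (h : H j s) : H j t := by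
  unfold H at *
  rw [Option.isSome_iff_exists] at *
  obtain ⟨a, ha⟩ := h
  exact ⟨a, Code.evaln_mono hst ha⟩

theorem primrecRel_H : PrimrecRel H := by
  apply Primrec₂.primrecRel
  have h : Primrec (fun p : ℕ × ℕ => (Code.evaln p.2 (Denumerable.ofNat Code p.1) 0).isSome) :=
    Primrec.option_isSome.comp (Code.primrec_evaln.comp
      (Primrec.pair (Primrec.pair Primrec.snd ((Primrec.ofNat Code).comp Primrec.fst))
        (Primrec.const 0)))
  refine h.of_eq fun p => ?_
  rw [Bool.eq_iff_iff, decide_eq_true_iff]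
  rfl

/-- program number `j` halts on input `0` -/
def Halts (j : ℕ) : Prop := ∃ t, H j t

theorem halts_iff (j : ℕ) : Halts j ↔ (Code.eval (Denumerable.ofNat Code j) 0).Dom := by
  unfold Halts H
  constructor
  · rintro ⟨t, ht⟩
    rw [Option.isSome_iff_exists] at ht
    obtain ⟨a, ha⟩ := ht
    have : a ∈ Code.eval (Denumerable.ofNat Code j) 0 := Code.evaln_complete.2 ⟨t, ha⟩
    exact (Part.dom_iff_mem).2 ⟨a, this⟩
  · intro h
    obtain ⟨a, ha⟩ := Part.dom_iff_mem.1 h
    obtain ⟨t, ht⟩ := Code.evaln_complete.1 ha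
    exact ⟨t, Option.isSome_iff_exists.2 ⟨a, ht⟩⟩

theorem not_computable_halts (f : ℕ → Bool) (hf : Computable f) : ¬ ∀ j, (f j = true ↔ Halts j) := by
  intro h
  apply ComputablePred.halting_problem 0
  have h1 : ∀ c : Code, f (Encodable.encode c) = true ↔ (Code.eval c 0).Dom := by
    intro c
    rw [h, halts_iff, Denumerable.ofNat_encode]
  have inst : DecidablePred (fun c : Code => (Code.eval c 0).Dom) :=
    fun c => decidable_of_iff _ (h1 c)
  refine ⟨inst, (hf.comp Computable.encode).of_eq fun c => ?_⟩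
  rw [Bool.eq_iff_iff, @decide_eq_true_iff _ (inst c)]
  exact h1 c

theorem exists_not_halts : ∃ j, ¬ Halts j := by
  by_contra h
  push Not at h
  exact not_computable_halts (fun _ => true) (Computable.const true) (fun j => by simp [h j])

/-- the number of steps needed, given an upper bound -/
def cnt (j s : ℕ) : ℕ := ∑ t ∈ Finset.range s, if H j t then 0 else 1

theorem cnt_eq {j s : ℕ} (h : H j s) : cnt j s = Nat.find (⟨s, h⟩ : ∃ t, H j t) := by
  classical
  set T := Nat.find (⟨s, h⟩ : ∃ t, H j t) with hT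
  have hTs : T ≤ s := Nat.find_min' _ h
  have hHT : H j T := Nat.find_spec (⟨s, h⟩ : ∃ t, H j t)
  unfold cnt
  rw [← Finset.sum_subset (Finset.range_mono hTs)]
  · rw [Finset.sum_congr rfl (g := fun _ => 1)]
    · simp
    · intro t ht
      have : ¬ H j t := Nat.find_min (⟨s, h⟩ : ∃ t, H j t) (Finset.mem_range.1 ht)
      simp [this]
  · intro t _ ht
    have : T ≤ t := by simpa using ht
    simp [H_mono this hHT]

open Classical in
/-- the period attached to program `j` (`0`, i.e. no period, if it does not halt) -/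
noncomputable def period (j : ℕ) : ℕ := if h : ∃ t, H j t then 2 ^ (Nat.find h) else 0

theorem primrec_sum {α : Type*} [Primcodable α] {f : α → ℕ → ℕ} (hf : Primrec₂ f) {b : α → ℕ}
    (hb : Primrec b) : Primrec (fun a => ∑ i ∈ Finset.range (b a), f a i) := by
  have h2 : Primrec₂ (fun (a : α) (p : ℕ × ℕ) => p.2 + f a p.1) :=
    Primrec.nat_add.comp₂ (Primrec.snd.comp₂ Primrec₂.right)
      (hf.comp₂ Primrec₂.left (Primrec.fst.comp₂ Primrec₂.right))
  refine (Primrec.nat_rec' hb (Primrec.const 0) h2).of_eq fun a => ?_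
  induction b a with
  | zero => simp
  | succ n ih => rw [Finset.sum_range_succ, ← ih]

theorem primrec_cnt : Primrec₂ cnt := by
  unfold cnt
  apply primrec_sum (α := ℕ × ℕ) (f := fun p t => if H p.1 t then 0 else 1) (b := fun p => p.2)
  · apply Primrec.ite
    · exact primrecRel_H.comp (Primrec.fst.comp Primrec.fst) Primrec.snd
    · exact Primrec.const 0
    · exact Primrec.const 1
  · exact Primrec.snd

/-- the value of `lam (period j)` on cylinders, as a fraction -/
def val (w : List Bool) (j : ℕ) : ℕ × ℕ :=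
  if H j w.length then
    (if w.drop (2 ^ cnt j w.length) = w.take (w.length - 2 ^ cnt j w.length) then
      (1, 2 ^ (min w.length (2 ^ cnt j w.length)) - 1) else (0, 0))
  else (1, 2 ^ w.length - 1)

theorem primrec_val : Primrec₂ val := by
  unfold val
  have hlen : Primrec (fun p : List Bool × ℕ => p.1.length) :=
    Primrec.list_length.comp Primrec.fst
  have hN : Primrec (fun p : List Bool × ℕ => 2 ^ cnt p.2 p.1.length) :=
    primrec₂_pow.comp (Primrec.const 2) (primrec_cnt.comp Primrec.snd hlen)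
  apply Primrec.ite
  · exact primrecRel_H.comp Primrec.snd hlen
  · apply Primrec.ite
    · exact Primrec.eq.comp (Primrec.list_drop.comp hN Primrec.fst)
        (Primrec.list_take.comp (Primrec.nat_sub.comp hlen hN) Primrec.fst)
    · exact Primrec.pair (Primrec.const 1) (Primrec.nat_sub.comp
        (primrec₂_pow.comp (Primrec.const 2) (Primrec.nat_min.comp hlen hN)) (Primrec.const 1))
    · exact Primrec.const (0, 0)
  · exact Primrec.pair (Primrec.const 1) (Primrec.nat_sub.comp
        (primrec₂_pow.comp (Primrec.const 2) hlen) (Primrec.const 1))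

theorem per_iff' (N : ℕ) (hN : 0 < N) (w : List Bool) :
    Per N w ↔ w.drop N = w.take (w.length - N) := by
  rw [per_iff N hN]
  constructor
  · intro h
    apply List.ext_getElem?
    intro i
    rw [List.getElem?_drop, List.getElem?_take]
    split_ifs with h1
    · rw [add_comm]
      exact (h i (by omega) (by omega)).symm
    · exact List.getElem?_eq_none (by omega)
  · intro h i hi hi2
    have h1 := congrArg (fun l => l[i]?) h
    simp only [List.getElem?_drop, List.getElem?_take] at h1
    rw [if_pos (by omega)] at h1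
    rw [← h1, add_comm]

theorem two_pow_sub_cast (n : ℕ) : (((2 ^ n - 1 : ℕ) : ℝ) + 1) = 2 ^ n := by
  rw [Nat.cast_sub Nat.one_le_two_pow]
  push_cast
  ring

theorem half_pow_toReal (n : ℕ) : ((2⁻¹ : ℝ≥0∞) ^ n).toReal = 1 / 2 ^ n := by
  rw [ENNReal.toReal_pow, ENNReal.toReal_inv]
  simp

theorem val_eq (w : List Bool) (j : ℕ) :
    ((lam (period j)) (cyl w)).toReal = ((val w j).1 : ℝ) / ((val w j).2 + 1) := by
  unfold val
  by_cases h : H j w.length
  · have hex : ∃ t, H j t := ⟨_, h⟩
    have hp : period j = 2 ^ cnt j w.length := by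
      unfold period
      rw [dif_pos hex, cnt_eq h]
    rw [if_pos h, ← hp]
    have hpos : 0 < period j := by rw [hp]; positivity
    by_cases h2 : w.drop (period j) = w.take (w.length - period j)
    · rw [if_pos h2]
      simp only
      rw [two_pow_sub_cast]
      rcases le_total w.length (period j) with h3 | h3
      · rw [lam_cyl_short _ _ (Or.inr h3), min_eq_left h3, half_pow_toReal]
        simp
      · rw [lam_cyl_long _ _ hpos h3 ((per_iff' _ hpos _).2 h2), min_eq_right h3, half_pow_toReal]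
        simp
    · rw [if_neg h2, (lam_cyl _ _).2 (fun h3 => h2 ((per_iff' _ hpos _).1 h3))]
      simp
  · rw [if_neg h]
    simp only
    rw [two_pow_sub_cast, lam_cyl_short, half_pow_toReal]
    · simp
    · unfold period
      split_ifs with h3
      · right
        have h4 : w.length < Nat.find h3 := by
          by_contra h5
          push Not at h5
          exact h (H_mono h5 (Nat.find_spec h3))
        exact h4.le.trans (Nat.lt_two_pow_self).le
      · left; rfl

/-- the initial measure -/
noncomputable def mu : Measure Config := mix (fun j => lam (period j))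

open Classical in
/-- the limit components -/
noncomputable def nuComp (j : ℕ) : Measure Config := if Halts j then Measure.dirac zero else lam 0

instance (j : ℕ) : IsProbabilityMeasure (nuComp j) := by
  unfold nuComp
  split_ifs <;> infer_instance

/-- the limit measure -/
noncomputable def nu : Measure Config := mix nuComp

instance : IsProbabilityMeasure mu := by unfold mu; infer_instance

instance : IsProbabilityMeasure nu := by unfold nu; infer_instance

theorem mu_shift : mu.map shift = mu := mix_shift _ fun j => lam_shift _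

theorem mu_computable : IsComputableMeasure mu :=
  mix_computable _ val primrec_val.to_comp (fun w j => val_eq w j)

theorem lam_zero_iter (n : ℕ) : (lam 0).map (F^[n]) = lam 0 := by
  induction n with
  | zero => simp
  | succ n ih =>
    rw [Function.iterate_succ, ← Measure.map_map (measurable_F.iterate n) measurable_F,
      lam_zero_F, ih]

theorem mu_tendsto {A : Set Config} (hA : MeasurableSet A) :
    Tendsto (fun n => ((mu.map (F^[n])) A).toReal) atTop (𝓝 ((nu A).toReal)) := by
  have h1 : ∀ n, mu.map (F^[n]) = mix (fun j => (lam (period j)).map (F^[n])) := fun n =>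
    mix_map _ (measurable_F.iterate n)
  simp_rw [h1]
  have : ∀ n j, IsProbabilityMeasure ((lam (period j)).map (F^[n])) := fun n j =>
    Measure.isProbabilityMeasure_map (measurable_F.iterate n).aemeasurable
  apply mix_tendsto
  · intro j
    by_cases h : Halts j
    · have h' : ∃ t, H j t := h
      have hp : period j = 2 ^ (Nat.find h') := by
        unfold period; rw [dif_pos h']
      filter_upwards [eventually_ge_atTop (period j)] with n hn
      rw [nuComp, if_pos h, hp]
      exact lam_two_pow_F (by rw [← hp]; exact hn)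
    · have h' : ¬ ∃ t, H j t := h
      have hp : period j = 0 := by
        unfold period; rw [dif_neg h']
      filter_upwards with n
      rw [nuComp, if_neg h, hp, lam_zero_iter]
  · exact hA

theorem nu_cyl_true : (nu (cyl [true])).toReal = ∑' j, wt j * (nuComp j (cyl [true])).toReal :=
  mix_toReal _ (measurableSet_cyl _)

open Classical in
theorem nuComp_cyl_true (j : ℕ) : (nuComp j (cyl [true])).toReal = if Halts j then 0 else 1 / 2 := by
  unfold nuComp
  split_ifs with h
  · rw [Measure.dirac_apply' _ (measurableSet_cyl _)]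
    have : zero ∉ cyl [true] := by
      intro h
      have := h 0 (by simp)
      simp [zero] at this
    rw [Set.indicator_of_notMem this]
    simp
  · rw [lam_cyl_short 0 _ (Or.inl rfl), half_pow_toReal]
    simp

/-- digits of the limit density -/
def dig (u : ℕ → ℕ) : ℕ → ℕ
  | 0 => 0
  | j + 1 => 4 * dig u j + u j

theorem dig_eq (u : ℕ → ℕ) (j : ℕ) :
    (dig u j : ℝ) = 4 ^ j * ∑ i ∈ Finset.range j, (u i : ℝ) / 4 ^ (i + 1) := by
  induction j with
  | zero => simp [dig]
  | succ j ih =>
    rw [Finset.sum_range_succ, mul_add, pow_succ, dig]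
    push_cast
    rw [ih]
    field_simp

theorem tail_bound (a : ℕ → ℝ) (h0 : ∀ i, 0 ≤ a i) (h1 : ∀ i, a i ≤ 1 / 2) (k : ℕ) :
    0 ≤ ∑' i, wt (i + k) * a (i + k) ∧
    ∑' i, wt (i + k) * a (i + k) ≤ (1 / 2) * (1 / 4 : ℝ) ^ k := by
  have hs : Summable (fun j => wt j * a j) :=
    summable_wt_mul _ h0 (fun j => (h1 j).trans (by norm_num))
  refine ⟨tsum_nonneg fun i => mul_nonneg (wt_pos _).le (h0 _), ?_⟩
  have hle : ∑' i, wt (i + k) * a (i + k) ≤ ∑' i, (1 / 2) * wt (i + k) := by
    apply Summable.tsum_le_tsum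
    · intro i
      have := mul_le_mul_of_nonneg_left (h1 (i + k)) (wt_pos (i + k)).le
      linarith
    · exact (summable_nat_add_iff k).2 hs
    · exact ((summable_nat_add_iff k).2 hasSum_wt.summable).mul_left _
  have h3 : (fun i => (1 / 2) * wt (i + k)) = fun i => ((1 / 2) * (1/4 : ℝ) ^ k) * wt i := by
    funext i
    unfold wt
    rw [show i + k + 1 = k + (i + 1) by ring, pow_add (4 : ℝ) k (i + 1), one_div_pow]
    field_simp
  rw [h3, tsum_mul_left, hasSum_wt.tsum_eq, mul_one] at hle
  exact hle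

theorem alg_core (D S t P Q r : ℝ) (hP : 0 < P) (hQ : Q * P = 1) (hD : D = P * S)
    (ht0 : 0 ≤ t) (ht1 : t ≤ (1 / 2) * Q) (hr : (3 / 2) * S + t = r) :
    6 * D ≤ 4 * P * r ∧ 4 * P * r ≤ 6 * D + 2 := by
  have h1 := mul_nonneg hP.le ht0
  have h2 := mul_le_mul_of_nonneg_left ht1 hP.le
  have h3 : 4 * P * r = 6 * (P * S) + 4 * (P * t) := by rw [← hr]; ring
  have h4 : P * (1 / 2 * Q) = 1 / 2 := by
    have : P * (1 / 2 * Q) = 1 / 2 * (Q * P) := by ring
    rw [this, hQ]; norm_num
  rw [h4] at h2
  rw [h3, hD]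
  constructor <;> linarith

theorem sum_bounds (u : ℕ → ℕ) (hu : ∀ i, u i ≤ 1) (j : ℕ) :
    6 * (dig u (j + 1) : ℝ) ≤ 4 ^ (j + 2) * ∑' j, wt j * ((u j : ℝ) / 2) ∧
    4 ^ (j + 2) * ∑' j, wt j * ((u j : ℝ) / 2) ≤ 6 * (dig u (j + 1) : ℝ) + 2 := by
  have hu' : ∀ i, (u i : ℝ) / 2 ≤ 1 / 2 := fun i => by
    have : (u i : ℝ) ≤ 1 := by exact_mod_cast hu i
    linarith
  have hu0 : ∀ i, (0 : ℝ) ≤ (u i : ℝ) / 2 := fun i => by positivity
  have hs : Summable (fun j => wt j * ((u j : ℝ) / 2)) :=
    summable_wt_mul _ hu0 (fun j => (hu' j).trans (by norm_num))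
  have ht := tail_bound (fun j => (u j : ℝ) / 2) hu0 hu' (j + 1)
  have hsum : ∑ i ∈ Finset.range (j + 1), wt i * ((u i : ℝ) / 2) =
      (3 / 2) * ∑ i ∈ Finset.range (j + 1), (u i : ℝ) / 4 ^ (i + 1) := by
    rw [Finset.mul_sum]
    apply Finset.sum_congr rfl
    intro i _
    unfold wt
    ring
  have h4 : (4 : ℝ) ^ (j + 2) = 4 * 4 ^ (j + 1) := by ring
  rw [h4]
  refine alg_core _ _ _ _ ((1/4 : ℝ) ^ (j + 1)) _ (by positivity) ?_ (dig_eq u (j + 1)) ht.1 ht.2 ?_
  · rw [← mul_pow]; norm_num
  · rw [← hsum]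
    exact hs.sum_add_tsum_nat_add (j + 1)

theorem div_core (D a b P : ℕ) (hP : 0 < P) (r : ℝ) (h1 : 6 * (D : ℝ) ≤ P * r)
    (h2 : P * r ≤ 6 * (D : ℝ) + 2) (h3 : |(a : ℝ) / (b + 1) - r| ≤ 1 / P) :
    (P * a + b + 1) / (6 * (b + 1)) = D := by
  have hP' : (0 : ℝ) < P := by exact_mod_cast hP
  have hb1 : (0 : ℝ) < (b : ℝ) + 1 := by positivity
  rw [abs_le] at h3
  obtain ⟨h3, h4⟩ := h3
  have hq : (a : ℝ) = (a : ℝ) / (b + 1) * (b + 1) := by field_simp
  generalize (a : ℝ) / (b + 1) = q at *
  have h5 : (P : ℝ) * (1 / P) = 1 := by field_simp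
  have hlow : 6 * (D : ℝ) - 1 ≤ P * q := by
    have : P * (r - 1 / P) ≤ P * q := mul_le_mul_of_nonneg_left (by linarith) hP'.le
    rw [mul_sub, h5] at this
    linarith
  have hhigh : P * q ≤ 6 * (D : ℝ) + 3 := by
    have : P * q ≤ P * (r + 1 / P) := mul_le_mul_of_nonneg_left (by linarith) hP'.le
    rw [mul_add, h5] at this
    linarith
  have e1 := mul_le_mul_of_nonneg_right hlow hb1.le
  have e2 := mul_le_mul_of_nonneg_right hhigh hb1.le
  have e3 : (P : ℝ) * q * (b + 1) = P * a := by rw [hq]; ring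
  rw [e3] at e1 e2
  apply Nat.div_eq_of_lt_le
  · have : ((D * (6 * (b + 1)) : ℕ) : ℝ) ≤ ((P * a + b + 1 : ℕ) : ℝ) := by
      push_cast
      linarith
    exact_mod_cast this
  · have : ((P * a + b + 1 : ℕ) : ℝ) < (((D + 1) * (6 * (b + 1)) : ℕ) : ℝ) := by
      push_cast
      linarith
    exact_mod_cast this

/-- the decoder -/
def decS (f : ℕ → ℕ × ℕ) (j : ℕ) : ℕ :=
  ((4 ^ (j + 2) * (f (2 * j + 4)).1 + (f (2 * j + 4)).2 + 1) /
      (6 * ((f (2 * j + 4)).2 + 1))) % 4

theorem decode_lemma (u : ℕ → ℕ) (hu : ∀ i, u i ≤ 1) (f : ℕ → ℕ × ℕ)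
    (hf : ∀ k, |((f k).1 : ℝ) / ((f k).2 + 1) - ∑' j, wt j * ((u j : ℝ) / 2)| ≤ (1 / 2) ^ k)
    (j : ℕ) : decS f j = u j := by
  have hb := sum_bounds u hu j
  have h := hf (2 * j + 4)
  have hpow : (1 / 2 : ℝ) ^ (2 * j + 4) = 1 / ((4 ^ (j + 2) : ℕ) : ℝ) := by
    rw [show 2 * j + 4 = 2 * (j + 2) by ring, pow_mul]
    push_cast
    rw [← one_div_pow]
    norm_num
  rw [hpow] at h
  have key := div_core (dig u (j + 1)) (f (2 * j + 4)).1 (f (2 * j + 4)).2 (4 ^ (j + 2))
    (by positivity) _ (by push_cast; exact hb.1) (by push_cast; exact hb.2) h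
  unfold decS
  rw [key, dig]
  have := hu j
  omega

theorem decS_aux : Primrec (fun p : ℕ × (ℕ × ℕ) =>
      ((4 ^ (p.1 + 2) * p.2.1 + p.2.2 + 1) / (6 * (p.2.2 + 1))) % 4) := by
  have q0 : Primrec (fun p : ℕ × (ℕ × ℕ) => p.1 + 2) :=
    Primrec.succ.comp (Primrec.succ.comp Primrec.fst)
  have q1 : Primrec (fun p : ℕ × (ℕ × ℕ) => 4 ^ (p.1 + 2) * p.2.1) :=
    Primrec.nat_mul.comp (primrec₂_pow.comp (Primrec.const 4) q0) (Primrec.fst.comp Primrec.snd)
  have q2 : Primrec (fun p : ℕ × (ℕ × ℕ) => 4 ^ (p.1 + 2) * p.2.1 + p.2.2 + 1) :=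
    Primrec.succ.comp (Primrec.nat_add.comp q1 (Primrec.snd.comp Primrec.snd))
  have q3 : Primrec (fun p : ℕ × (ℕ × ℕ) => 6 * (p.2.2 + 1)) :=
    Primrec.nat_mul.comp (Primrec.const 6) (Primrec.succ.comp (Primrec.snd.comp Primrec.snd))
  exact Primrec.nat_mod.comp (Primrec.nat_div.comp q2 q3) (Primrec.const 4)

theorem lin_aux : Primrec (fun j : ℕ => 2 * j + 4) :=
  Primrec.nat_add.comp (Primrec.nat_mul.comp (Primrec.const 2) Primrec.id) (Primrec.const 4)

theorem decS_computable (f : ℕ → ℕ × ℕ) (hf : Computable f) : Computable (decS f) := by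
  have h1 : Computable (fun j : ℕ => f (2 * j + 4)) := hf.comp lin_aux.to_comp
  have h2 := decS_aux.to_comp.comp (Computable.pair Computable.id h1)
  refine h2.of_eq fun j => ?_
  unfold decS
  rfl

theorem nu_not_computable : ¬ IsComputableMeasure nu := by
  classical
  rintro ⟨f, hf, h⟩
  have hval : ∑' j, wt j * (((if Halts j then 0 else 1 : ℕ) : ℝ) / 2) =
      (nu (cyl [true])).toReal := by
    rw [nu_cyl_true]
    congr 1
    funext j
    rw [nuComp_cyl_true]
    split_ifs <;> simp
  have hdec := decode_lemma (fun j => if Halts j then 0 else 1)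
    (fun i => by split_ifs <;> simp) (f [true]) (fun k => by rw [hval]; exact h [true] k)
  have hS : Computable (decS (f [true])) :=
    decS_computable _ (Computable₂.comp hf (Computable.const [true]) Computable.id)
  apply not_computable_halts (fun j => decide (decS (f [true]) j = 0))
  · have h3 : Primrec (fun n : ℕ => decide (n = 0)) :=
      PrimrecPred.decide (Primrec.eq.comp Primrec.id (Primrec.const 0))
    exact h3.to_comp.comp hS
  · intro j
    rw [decide_eq_true_iff, hdec j]
    split_ifs with h5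
    · simp [h5]
    · simp [h5]

theorem mu_full (w : List Bool) : mu (cyl w) ≠ 0 := by
  obtain ⟨j, hj⟩ := exists_not_halts
  unfold mu
  rw [mix_apply _ (measurableSet_cyl w)]
  intro h
  rw [ENNReal.tsum_eq_zero] at h
  have h1 := h j
  have hj' : ¬ ∃ t, H j t := hj
  have hp : period j = 0 := by unfold period; rw [dif_neg hj']
  rw [hp, lam_cyl_short 0 w (Or.inl rfl), mul_eq_zero] at h1
  rcases h1 with h1 | h1
  · rw [ENNReal.ofReal_eq_zero] at h1
    exact absurd (wt_pos j) (not_lt.2 h1)
  · simp at h1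

end Pool.Agent.Lib.MP_02be1f_lc
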