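import Mathlib
import Pool.Agent.Lib.MP_02be1f_lc.Halting

open MeasureTheory Filter Topology
open scoped ENNReal

namespace Pool.Agent.Lib.MP_02be1f_lc

/-- the base point of period `3 * 2^k` -/
def pt (k : ℕ) : Config := fun i =>
  decide (i % (3 * 2 ^ k : ℤ) = 0) || decide (i % (3 * 2 ^ k : ℤ) = 2 ^ k)

/-- spread out a configuration by a factor two -/
def dbl (x : Config) : Config := fun i => if i % 2 = 0 then x (i / 2) else false

theorem shift_iter (u : ℕ) (x : Config) (i : ℤ) : (shift^[u] x) i = x (i + u) := by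
  induction u generalizing x i with
  | zero => simp
  | succ u ih =>
    rw [Function.iterate_succ_apply', shift, ih]
    congr 1
    push_cast
    ring

theorem F_shift_comm : Function.Commute F shift := by
  intro x
  funext i
  simp [F, shift]

theorem F_iter_shift (n u : ℕ) (x : Config) : (F^[n]) (shift^[u] x) = shift^[u] (F^[n] x) :=
  (F_shift_comm.iterate_iterate n u) x

theorem dbl_even (x : Config) (i : ℤ) : dbl x (2 * i) = x i := by
  unfold dbl
  rw [if_pos (by omega)]
  congr 1
  omega

theorem dbl_odd (x : Config) (i : ℤ) : dbl x (2 * i + 1) = false := by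
  unfold dbl
  rw [if_neg (by omega)]

theorem F_dbl_even (x : Config) (i : ℤ) : F (dbl x) (2 * i) = x i := by
  unfold F
  rw [dbl_even, dbl_odd]; simp

theorem F_dbl_odd (x : Config) (i : ℤ) : F (dbl x) (2 * i + 1) = x (i + 1) := by
  unfold F
  rw [dbl_odd, show 2 * i + 1 + 1 = 2 * (i + 1) by ring, dbl_even]; simp

theorem F_F_dbl (x : Config) : F (F (dbl x)) = dbl (F x) := by
  funext i
  rcases Int.even_or_odd' i with ⟨j, rfl | rfl⟩
  · rw [dbl_even]
    show xor (F (dbl x) (2 * j)) (F (dbl x) (2 * j + 1)) = _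
    rw [F_dbl_even, F_dbl_odd]
    rfl
  · rw [dbl_odd]
    show xor (F (dbl x) (2 * j + 1)) (F (dbl x) (2 * j + 1 + 1)) = _
    rw [F_dbl_odd, show 2 * j + 1 + 1 = 2 * (j + 1) by ring, F_dbl_even]
    simp

theorem F_iter_dbl (m : ℕ) (x : Config) : (F^[2 * m]) (dbl x) = dbl (F^[m] x) := by
  induction m with
  | zero => simp
  | succ m ih =>
    rw [show 2 * (m + 1) = (2 * m + 1) + 1 by ring, Function.iterate_succ_apply',
      Function.iterate_succ_apply', ih, F_F_dbl, Function.iterate_succ_apply']

theorem pt_succ (k : ℕ) : pt (k + 1) = dbl (pt k) := by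
  funext i
  have hP : (0 : ℤ) < 3 * 2 ^ k := by positivity
  have e : (3 * 2 ^ (k + 1) : ℤ) = 2 * (3 * 2 ^ k) := by ring
  have e2 : (2 ^ (k + 1) : ℤ) = 2 * 2 ^ k := by ring
  rcases Int.even_or_odd' i with ⟨j, rfl | rfl⟩
  · rw [dbl_even]
    unfold pt
    rw [e, e2, Int.mul_emod_mul_of_pos _ _ (by norm_num : (0:ℤ) < 2)]
    congr 1
    · simp
    · simp
  · rw [dbl_odd]
    unfold pt
    rw [e, e2]
    have h1 : (2 * j + 1) % (2 * (3 * 2 ^ k)) % 2 = 1 := by
      rw [Int.emod_emod_of_dvd _ (Dvd.intro _ rfl)]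
      omega
    simp only [Bool.or_eq_false_iff, decide_eq_false_iff_not]
    constructor
    · intro h; rw [h] at h1; norm_num at h1
    · intro h; rw [h] at h1; omega

/-- `x` contains the marker word of level `k` at position `i` -/
def Has (x : Config) (k : ℕ) (i : ℤ) : Prop := ∀ l : ℕ, l ≤ 3 * 2 ^ k → x (i + l) = pt k l

theorem pt_zero_val (i : ℤ) : pt 0 i = (decide (i % 3 = 0) || decide (i % 3 = 1)) := by
  unfold pt; norm_num

theorem pt_at_zero (k : ℕ) : pt k 0 = true := by
  unfold pt; simp

theorem pt_at_mid (k : ℕ) : pt k ((2 ^ k : ℕ) : ℤ) = true := by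
  unfold pt
  have h : ((2 ^ k : ℕ) : ℤ) % (3 * 2 ^ k) = 2 ^ k := by
    push_cast
    apply Int.emod_eq_of_lt (by positivity)
    have : (0 : ℤ) < 2 ^ k := by positivity
    linarith
  rw [h]; simp

theorem pt_false {k : ℕ} {l : ℕ} (h0 : l ≠ 0) (h1 : l ≠ 2 ^ k) (h2 : l < 3 * 2 ^ k) :
    pt k (l : ℤ) = false := by
  unfold pt
  have h : (l : ℤ) % (3 * 2 ^ k) = l := by
    apply Int.emod_eq_of_lt (by positivity)
    exact_mod_cast h2
  rw [h]
  simp only [Bool.or_eq_false_iff, decide_eq_false_iff_not]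
  exact ⟨by exact_mod_cast h0, by exact_mod_cast h1⟩

theorem F_iter_pt_pow (k : ℕ) : (F^[2 ^ k]) (pt k) = shift^[2 * 2 ^ k] (pt k) := by
  induction k with
  | zero =>
    funext i
    rw [shift_iter]
    simp only [pow_zero, Function.iterate_one, F, pt_zero_val]
    have h : i % 3 = 0 ∨ i % 3 = 1 ∨ i % 3 = 2 := by omega
    push_cast
    rcases h with h | h | h
    · have h1 : (i + 1) % 3 = 1 := by omega
      have h2 : (i + 2) % 3 = 2 := by omega
      simp [h, h1, h2]
    · have h1 : (i + 1) % 3 = 2 := by omega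
      have h2 : (i + 2) % 3 = 0 := by omega
      simp [h, h1, h2]
    · have h1 : (i + 1) % 3 = 0 := by omega
      have h2 : (i + 2) % 3 = 1 := by omega
      simp [h, h1, h2]
  | succ k ih =>
    rw [pt_succ, show 2 ^ (k + 1) = 2 * 2 ^ k by ring, F_iter_dbl, ih]
    funext i
    rw [shift_iter]
    rcases Int.even_or_odd' i with ⟨j, rfl | rfl⟩
    · rw [dbl_even, shift_iter]
      rw [show (2 * j + ((2 * (2 * 2 ^ k) : ℕ) : ℤ)) = 2 * (j + ((2 * 2 ^ k : ℕ) : ℤ)) by
        push_cast; ring, dbl_even]
    · rw [dbl_odd]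
      rw [show (2 * j + 1 + ((2 * (2 * 2 ^ k) : ℕ) : ℤ)) = 2 * (j + ((2 * 2 ^ k : ℕ) : ℤ)) + 1 by
        push_cast; ring, dbl_odd]

theorem F_iter_pt_zero (n : ℕ) : (F^[n]) (pt 0) = shift^[2 * n] (pt 0) := by
  induction n with
  | zero => simp
  | succ n ih =>
    rw [Function.iterate_succ_apply, show F (pt 0) = shift^[2] (pt 0) by
      simpa using F_iter_pt_pow 0, F_iter_shift, ih, ← Function.iterate_add_apply]
    congr 1
    ring

/-- the marker words of different levels do not occur in each other's space-time diagrams -/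
theorem not_has (k' : ℕ) : ∀ (k n : ℕ) (i : ℤ), k ≠ k' → ¬ Has ((F^[n]) (pt k')) k i := by
  induction k' with
  | zero =>
    intro k n i hk h
    rw [F_iter_pt_zero] at h
    obtain ⟨k, rfl⟩ := Nat.exists_eq_succ_of_ne_zero hk
    have hp : 2 ≤ 2 ^ (k + 1) := by
      calc 2 = 2 ^ 1 := by norm_num
        _ ≤ 2 ^ (k + 1) := Nat.pow_le_pow_right (by norm_num) (by omega)
    have h1 := h (2 ^ (k + 1) + 1) (by show 2 ^ (k + 1) + 1 ≤ 3 * 2 ^ (k + 1); omega)
    have h2 := h (2 ^ (k + 1) + 2) (by show 2 ^ (k + 1) + 2 ≤ 3 * 2 ^ (k + 1); omega)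
    rw [pt_false (by omega) (by show _ ≠ 2 ^ (k + 1); omega)
      (by show _ < 3 * 2 ^ (k + 1); omega), shift_iter, pt_zero_val] at h1
    rw [pt_false (by omega) (by show _ ≠ 2 ^ (k + 1); omega)
      (by show _ < 3 * 2 ^ (k + 1); omega), shift_iter, pt_zero_val] at h2
    simp only [Bool.or_eq_false_iff, decide_eq_false_iff_not] at h1 h2
    push_cast at h1 h2
    generalize (2 : ℤ) ^ (k + 1) = P at *
    omega
  | succ k' ih =>
    intro k n i hk h
    rw [pt_succ] at h
    rcases Nat.even_or_odd' n with ⟨m, rfl | rfl⟩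
    · -- even time
      rw [F_iter_dbl] at h
      cases k with
      | zero =>
        have h0 := h 0 (by omega)
        have h1 := h 1 (by norm_num)
        rw [show ((0 : ℕ) : ℤ) = 0 by rfl, pt_at_zero, add_zero] at h0
        have h1' : pt 0 ((1 : ℕ) : ℤ) = true := by simpa using pt_at_mid 0
        rw [h1'] at h1
        rcases Int.even_or_odd' i with ⟨j, rfl | rfl⟩
        · push_cast at h1
          rw [dbl_odd] at h1
          simp at h1
        · rw [dbl_odd] at h0
          simp at h0
      | succ k =>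
        have h0 := h 0 (by omega)
        rw [show ((0 : ℕ) : ℤ) = 0 by rfl, pt_at_zero, add_zero] at h0
        rcases Int.even_or_odd' i with ⟨j, rfl | rfl⟩
        · apply ih k m j (by omega)
          intro l hl
          have h2 := h (2 * l) (by rw [pow_succ]; omega)
          rw [pt_succ] at h2
          push_cast at h2
          rw [dbl_even, show 2 * j + 2 * (l : ℤ) = 2 * (j + l) by ring, dbl_even] at h2
          exact h2
        · rw [dbl_odd] at h0
          simp at h0
    · -- odd time
      rw [Function.iterate_succ_apply', F_iter_dbl] at h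
      set y := (F^[m]) (pt k') with hy
      cases k with
      | zero =>
        have h1 := h 1 (by norm_num)
        have h2 := h 2 (by norm_num)
        have h3 := h 3 (by norm_num)
        have e1 : pt 0 ((1 : ℕ) : ℤ) = true := by simpa using pt_at_mid 0
        have e2 : pt 0 ((2 : ℕ) : ℤ) = false := pt_false (by norm_num) (by norm_num) (by norm_num)
        have e3 : pt 0 ((3 : ℕ) : ℤ) = true := by rw [pt_zero_val]; decide
        rw [e1] at h1
        rw [e2] at h2
        rw [e3] at h3
        push_cast at h1 h2 h3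
        rcases Int.even_or_odd' i with ⟨j, rfl | rfl⟩
        · rw [F_dbl_odd] at h1
          rw [show 2 * j + 2 = 2 * (j + 1) by ring, F_dbl_even] at h2
          rw [h1] at h2
          simp at h2
        · rw [show 2 * j + 1 + 2 = 2 * (j + 1) + 1 by ring, F_dbl_odd] at h2
          rw [show 2 * j + 1 + 3 = 2 * (j + 1 + 1) by ring, F_dbl_even] at h3
          rw [h2] at h3
          simp at h3
      | succ k =>
        have hp : 2 ≤ 2 ^ (k + 1) := by
          calc 2 = 2 ^ 1 := by norm_num
            _ ≤ 2 ^ (k + 1) := Nat.pow_le_pow_right (by norm_num) (by omega)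
        have h1 := h (2 ^ (k + 1)) (by omega)
        rw [pt_at_mid] at h1
        have h2 := h (2 ^ (k + 1) + 1) (by omega)
        rw [pt_false (by omega) (by omega) (by omega)] at h2
        have h3 := h (2 ^ (k + 1) - 1) (by omega)
        rw [pt_false (by omega) (by omega) (by omega)] at h3
        have e3 : ((2 ^ (k + 1) - 1 : ℕ) : ℤ) = ((2 ^ (k + 1) : ℕ) : ℤ) - 1 := by
          rw [Nat.cast_sub (by omega)]; rfl
        rw [e3] at h3
        push_cast at h1 h2 h3
        obtain ⟨j, hj | hj⟩ := Int.even_or_odd' (i + 2 ^ (k + 1))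
        · rw [hj, F_dbl_even] at h1
          rw [show i + ((2 : ℤ) ^ (k + 1) - 1) = 2 * (j - 1) + 1 by linarith, F_dbl_odd,
            sub_add_cancel] at h3
          rw [h1] at h3
          simp at h3
        · rw [hj, F_dbl_odd] at h1
          rw [show i + ((2 : ℤ) ^ (k + 1) + 1) = 2 * (j + 1) by linarith, F_dbl_even] at h2
          rw [h1] at h2
          simp at h2

end Pool.Agent.Lib.MP_02be1f_lc
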