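import Mathlib
import Pool.Agent.Lib.MP_02be1f_lc.Words

open MeasureTheory Filter Topology
open scoped ENNReal

namespace Pool.Agent.Lib.MP_02be1f_lc

/-- uniform measure on the shift orbit of `pt k` -/
noncomputable def theta (k : ℕ) : Measure Config :=
  ((3 * 2 ^ k : ℕ) : ℝ≥0∞)⁻¹ • ∑ u ∈ Finset.range (3 * 2 ^ k), Measure.dirac (shift^[u] (pt k))

theorem theta_apply (k : ℕ) {A : Set Config} (hA : MeasurableSet A) [DecidablePred (· ∈ A)] :
    theta k A = ((3 * 2 ^ k : ℕ) : ℝ≥0∞)⁻¹ *
      ((∑ u ∈ Finset.range (3 * 2 ^ k), if shift^[u] (pt k) ∈ A then 1 else 0 : ℕ) : ℝ≥0∞) := by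
  unfold theta
  rw [Measure.smul_apply, Measure.finsetSum_apply, smul_eq_mul]
  congr 1
  push_cast
  apply Finset.sum_congr rfl
  intro u _
  rw [Measure.dirac_apply' _ hA, Set.indicator_apply]
  split_ifs <;> simp

instance (k : ℕ) : IsProbabilityMeasure (theta k) := by
  classical
  constructor
  rw [theta_apply k MeasurableSet.univ]
  simp only [Set.mem_univ, if_true, Finset.sum_const, Finset.card_range, smul_eq_mul, mul_one]
  rw [ENNReal.inv_mul_cancel]
  · have : 0 < 3 * 2 ^ k := by positivity
    exact_mod_cast this.ne'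
  · exact ENNReal.natCast_ne_top _

theorem shift_period (k : ℕ) : shift^[3 * 2 ^ k] (pt k) = pt k := by
  funext i
  rw [shift_iter]
  unfold pt
  push_cast
  rw [Int.add_emod_right]

theorem theta_map_shift (k : ℕ) : (theta k).map shift = theta k := by
  unfold theta
  rw [Measure.map_smul, Measure.map_finset_sum measurable_shift.aemeasurable]
  congr 1
  have h1 : ∀ u ∈ Finset.range (3 * 2 ^ k), (Measure.dirac (shift^[u] (pt k))).map shift =
      Measure.dirac (shift^[u + 1] (pt k)) := by
    intro u _
    rw [Measure.map_dirac' measurable_shift, ← Function.iterate_succ_apply' shift]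
  rw [Finset.sum_congr rfl h1]
  have h2 := Finset.sum_range_succ' (fun u => Measure.dirac (shift^[u] (pt k))) (3 * 2 ^ k)
  have h3 := Finset.sum_range_succ (fun u => Measure.dirac (shift^[u] (pt k))) (3 * 2 ^ k)
  rw [shift_period] at h3
  simp only [Function.iterate_zero, id] at h2
  rw [h3] at h2
  -- cancel
  ext A hA
  have h4 := congrArg (fun m : Measure Config => m A) h2
  simp only [Measure.add_apply] at h4
  exact ((ENNReal.add_left_inj (measure_ne_top _ _)).1 h4).symm

theorem theta_map_shift_iter (k u : ℕ) : (theta k).map (shift^[u]) = theta k := by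
  induction u with
  | zero => simp
  | succ u ih =>
    rw [Function.iterate_succ, ← Measure.map_map (measurable_shift.iterate u) measurable_shift,
      theta_map_shift, ih]

theorem theta_map_F_pow (k : ℕ) : (theta k).map (F^[2 ^ k]) = theta k := by
  have h : (theta k).map (F^[2 ^ k]) = (theta k).map (shift^[2 * 2 ^ k]) := by
    unfold theta
    rw [Measure.map_smul, Measure.map_smul,
      Measure.map_finset_sum (measurable_F.iterate _).aemeasurable,
      Measure.map_finset_sum (measurable_shift.iterate _).aemeasurable]
    congr 1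
    apply Finset.sum_congr rfl
    intro u _
    rw [Measure.map_dirac' (measurable_F.iterate _), Measure.map_dirac' (measurable_shift.iterate _),
      F_iter_shift, F_iter_pt_pow, ← Function.iterate_add_apply, ← Function.iterate_add_apply,
      add_comm]
  rw [h, theta_map_shift_iter]

theorem theta_map_F_mul (k m : ℕ) : (theta k).map (F^[2 ^ k * m]) = theta k := by
  induction m with
  | zero => simp
  | succ m ih =>
    rw [mul_add, mul_one, Function.iterate_add,
      ← Measure.map_map (measurable_F.iterate _) (measurable_F.iterate _), theta_map_F_pow, ih]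

/-- `pt k` on natural numbers, as a primitive recursive function -/
def ptn (k n : ℕ) : Bool := decide (n % (3 * 2 ^ k) = 0) || decide (n % (3 * 2 ^ k) = 2 ^ k)

theorem ptn_eq (k n : ℕ) : ptn k n = pt k (n : ℤ) := by
  unfold ptn pt
  have h1 : (n : ℤ) % (3 * 2 ^ k) = ((n % (3 * 2 ^ k) : ℕ) : ℤ) := by push_cast; rfl
  rw [h1]
  congr 1
  · rw [decide_eq_decide]; norm_cast
  · rw [decide_eq_decide]; norm_cast

/-- the marker word -/
def marker (k : ℕ) : List Bool := (List.range (3 * 2 ^ k + 1)).map (ptn k)

theorem mem_cyl_marker (k : ℕ) (x : Config) : x ∈ cyl (marker k) ↔ Has x k 0 := by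
  unfold cyl Has marker
  simp only [Set.mem_ofPred_eq, List.length_map, List.length_range, List.getElem_map,
    List.getElem_range, zero_add, ptn_eq]
  constructor
  · intro h l hl; exact h l (by omega)
  · intro h l hl; exact h l (by omega)

theorem has_shift (x : Config) (k u : ℕ) : Has (shift^[u] x) k 0 ↔ Has x k u := by
  unfold Has
  simp only [shift_iter, zero_add]
  constructor
  · intro h l hl; rw [add_comm (u : ℤ)]; exact h l hl
  · intro h l hl; rw [add_comm (l : ℤ)]; exact h l hl

theorem theta_marker_ne {k k' : ℕ} (h : k ≠ k') (n : ℕ) :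
    ((theta k').map (F^[n])) (cyl (marker k)) = 0 := by
  classical
  rw [Measure.map_apply (measurable_F.iterate n) (measurableSet_cyl _),
    theta_apply _ ((measurable_F.iterate n) (measurableSet_cyl _))]
  have : (∑ u ∈ Finset.range (3 * 2 ^ k'),
      if shift^[u] (pt k') ∈ F^[n] ⁻¹' cyl (marker k) then 1 else 0) = 0 := by
    apply Finset.sum_eq_zero
    intro u _
    rw [if_neg]
    rw [Set.mem_preimage, F_iter_shift, mem_cyl_marker, has_shift]
    exact not_has k' k n u h
  rw [this]
  simp

theorem theta_marker_self (k : ℕ) : (theta k) (cyl (marker k)) ≠ 0 := by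
  classical
  rw [theta_apply _ (measurableSet_cyl _)]
  apply mul_ne_zero
  · exact ENNReal.inv_ne_zero.2 (ENNReal.natCast_ne_top _)
  · have h1 : 1 ≤ ∑ u ∈ Finset.range (3 * 2 ^ k),
        if shift^[u] (pt k) ∈ cyl (marker k) then 1 else 0 := by
      have h0 : shift^[0] (pt k) ∈ cyl (marker k) := by
        rw [mem_cyl_marker]
        intro l _
        simp
      have h2 := Finset.single_le_sum (s := Finset.range (3 * 2 ^ k))
        (f := fun u => if shift^[u] (pt k) ∈ cyl (marker k) then 1 else 0)
        (fun _ _ => Nat.zero_le _) (Finset.mem_range.2 (by positivity : 0 < 3 * 2 ^ k))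
      simp only [if_pos h0] at h2
      exact h2
    exact_mod_cast (by omega : (∑ u ∈ Finset.range (3 * 2 ^ k),
        if shift^[u] (pt k) ∈ cyl (marker k) then 1 else 0) ≠ 0)

/-- word of a given length read in `pt k` from position `u` -/
def readPt (k u n : ℕ) : List Bool := (List.range n).map (fun l => ptn k (u + l))

theorem mem_cyl_iff (k u : ℕ) (w : List Bool) :
    shift^[u] (pt k) ∈ cyl w ↔ w = readPt k u w.length := by
  unfold cyl readPt
  simp only [Set.mem_ofPred_eq, shift_iter]
  constructor
  · intro h
    apply List.ext_getElem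
    · simp
    · intro i h1 h2
      rw [List.getElem_map, List.getElem_range, ← h i h1, ptn_eq]
      congr 1
      push_cast
      ring
  · intro h i hi
    have h2 : w[i]? = (List.map (fun l => ptn k (u + l)) (List.range w.length))[i]? := by
      rw [← h]
    rw [List.getElem?_map, List.getElem?_range hi, List.getElem?_eq_getElem hi] at h2
    simp only [Option.map_some, Option.some.injEq] at h2
    rw [h2, ptn_eq]
    congr 1
    push_cast
    ring

/-- number of occurrences of a word in one period -/
def occ (w : List Bool) (k : ℕ) : ℕ :=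
  ∑ u ∈ Finset.range (3 * 2 ^ k), if w = readPt k u w.length then 1 else 0

theorem theta_cyl_toReal (w : List Bool) (k : ℕ) :
    ((theta k) (cyl w)).toReal = (occ w k : ℝ) / (((3 * 2 ^ k - 1 : ℕ) : ℝ) + 1) := by
  classical
  rw [theta_apply _ (measurableSet_cyl _)]
  have h1 : (∑ u ∈ Finset.range (3 * 2 ^ k), if shift^[u] (pt k) ∈ cyl w then 1 else 0) =
      occ w k := by
    unfold occ
    apply Finset.sum_congr rfl
    intro u _
    simp only [mem_cyl_iff]
  rw [h1, ENNReal.toReal_mul, ENNReal.toReal_inv, ENNReal.toReal_natCast, ENNReal.toReal_natCast]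
  have h2 : 1 ≤ 3 * 2 ^ k := Nat.succ_le_of_lt (by positivity)
  rw [Nat.cast_sub h2]
  push_cast
  rw [sub_add_cancel]
  field_simp

/-- the components of the Q2 measure -/
noncomputable def comp (j : ℕ) : Measure Config :=
  if H j.unpair.1 j.unpair.2 then theta j.unpair.1 else lam (2 ^ j)

instance (j : ℕ) : IsProbabilityMeasure (comp j) := by
  unfold comp; split_ifs <;> infer_instance

/-- value on cylinders -/
def val2 (w : List Bool) (j : ℕ) : ℕ × ℕ :=
  if H j.unpair.1 j.unpair.2 then (occ w j.unpair.1, 3 * 2 ^ j.unpair.1 - 1)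
  else if w.drop (2 ^ j) = w.take (w.length - 2 ^ j) then
      (1, 2 ^ (min w.length (2 ^ j)) - 1) else (0, 0)

theorem val2_eq (w : List Bool) (j : ℕ) :
    ((comp j) (cyl w)).toReal = ((val2 w j).1 : ℝ) / ((val2 w j).2 + 1) := by
  unfold comp val2
  split_ifs with h1 h2
  · exact theta_cyl_toReal w _
  · have hpos : 0 < 2 ^ j := by positivity
    simp only
    rw [two_pow_sub_cast]
    rcases le_total w.length (2 ^ j) with h3 | h3
    · rw [lam_cyl_short _ _ (Or.inr h3), min_eq_left h3, half_pow_toReal]
      simp
    · rw [lam_cyl_long _ _ hpos h3 ((per_iff' _ hpos _).2 h2), min_eq_right h3, half_pow_toReal]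
      simp
  · have hpos : 0 < 2 ^ j := by positivity
    rw [(lam_cyl _ _).2 (fun h3 => h2 ((per_iff' _ hpos _).1 h3))]
    simp

theorem primrec_ptn : Primrec₂ ptn := by
  unfold ptn
  have hP : Primrec (fun p : ℕ × ℕ => 3 * 2 ^ p.1) :=
    Primrec.nat_mul.comp (Primrec.const 3) (primrec₂_pow.comp (Primrec.const 2) Primrec.fst)
  have hm : Primrec (fun p : ℕ × ℕ => p.2 % (3 * 2 ^ p.1)) := Primrec.nat_mod.comp Primrec.snd hP
  have h1 : Primrec (fun p : ℕ × ℕ => decide (p.2 % (3 * 2 ^ p.1) = 0)) :=
    PrimrecPred.decide (Primrec.eq.comp hm (Primrec.const 0))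
  have h2 : Primrec (fun p : ℕ × ℕ => decide (p.2 % (3 * 2 ^ p.1) = 2 ^ p.1)) :=
    PrimrecPred.decide (Primrec.eq.comp hm (primrec₂_pow.comp (Primrec.const 2) Primrec.fst))
  exact Primrec.or.comp h1 h2

theorem primrec_readPt : Primrec (fun p : (ℕ × ℕ) × ℕ => readPt p.1.1 p.1.2 p.2) := by
  unfold readPt
  apply Primrec.list_map (Primrec.list_range.comp Primrec.snd)
  exact primrec_ptn.comp (Primrec.fst.comp (Primrec.fst.comp Primrec.fst))
    (Primrec.nat_add.comp (Primrec.snd.comp (Primrec.fst.comp Primrec.fst)) Primrec.snd)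

theorem primrec_occ : Primrec₂ occ := by
  unfold occ
  apply primrec_sum (α := List Bool × ℕ)
    (f := fun p u => if p.1 = readPt p.2 u p.1.length then 1 else 0) (b := fun p => 3 * 2 ^ p.2)
  · apply Primrec.ite
    · apply Primrec.eq.comp (Primrec.fst.comp Primrec.fst)
      exact primrec_readPt.comp (Primrec.pair
        (Primrec.pair (Primrec.snd.comp Primrec.fst) Primrec.snd)
        (Primrec.list_length.comp (Primrec.fst.comp Primrec.fst)))
    · exact Primrec.const 1
    · exact Primrec.const 0
  · exact Primrec.nat_mul.comp (Primrec.const 3)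
      (primrec₂_pow.comp (Primrec.const 2) Primrec.snd)

theorem primrec_val2 : Primrec₂ val2 := by
  unfold val2
  have hu : Primrec (fun p : List Bool × ℕ => p.2.unpair) := Primrec.unpair.comp Primrec.snd
  have hu1 : Primrec (fun p : List Bool × ℕ => p.2.unpair.1) := Primrec.fst.comp hu
  have hu2 : Primrec (fun p : List Bool × ℕ => p.2.unpair.2) := Primrec.snd.comp hu
  have hlen : Primrec (fun p : List Bool × ℕ => p.1.length) :=
    Primrec.list_length.comp Primrec.fst
  have hN : Primrec (fun p : List Bool × ℕ => 2 ^ p.2) :=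
    primrec₂_pow.comp (Primrec.const 2) Primrec.snd
  apply Primrec.ite
  · exact primrecRel_H.comp hu1 hu2
  · exact Primrec.pair (primrec_occ.comp Primrec.fst hu1) (Primrec.nat_sub.comp
      (Primrec.nat_mul.comp (Primrec.const 3) (primrec₂_pow.comp (Primrec.const 2) hu1))
      (Primrec.const 1))
  · apply Primrec.ite
    · exact Primrec.eq.comp (Primrec.list_drop.comp hN Primrec.fst)
        (Primrec.list_take.comp (Primrec.nat_sub.comp hlen hN) Primrec.fst)
    · exact Primrec.pair (Primrec.const 1) (Primrec.nat_sub.comp
        (primrec₂_pow.comp (Primrec.const 2) (Primrec.nat_min.comp hlen hN)) (Primrec.const 1))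
    · exact Primrec.const (0, 0)

/-- the Q2 measure -/
noncomputable def mu2 : Measure Config := mix comp

instance : IsProbabilityMeasure mu2 := by unfold mu2; infer_instance

theorem mu2_shift : mu2.map shift = mu2 := mix_shift _ fun j => by
  unfold comp
  split_ifs
  · exact theta_map_shift _
  · exact lam_shift _

theorem mu2_computable : IsComputableMeasure mu2 :=
  mix_computable _ val2 primrec_val2.to_comp (fun w j => val2_eq w j)

theorem mu2_full (w : List Bool) : mu2 (cyl w) ≠ 0 := by
  obtain ⟨k, hk⟩ := exists_not_halts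
  unfold mu2
  rw [mix_apply _ (measurableSet_cyl w)]
  intro h
  rw [ENNReal.tsum_eq_zero] at h
  have h1 := h (Nat.pair k w.length)
  have h2 : ¬ H k w.length := fun h => hk ⟨_, h⟩
  unfold comp at h1
  rw [Nat.unpair_pair, if_neg h2, lam_cyl_short _ w, mul_eq_zero] at h1
  · rcases h1 with h1 | h1
    · rw [ENNReal.ofReal_eq_zero] at h1
      exact absurd (wt_pos _) (not_lt.2 h1)
    · simp at h1
  · right
    calc w.length ≤ Nat.pair k w.length := Nat.right_le_pair _ _
      _ ≤ 2 ^ Nat.pair k w.length := (Nat.lt_two_pow_self).le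

theorem zero_not_mem_marker (k : ℕ) : zero ∉ cyl (marker k) := by
  rw [mem_cyl_marker]
  intro h
  have := h 0 (by omega)
  rw [show ((0 : ℕ) : ℤ) = 0 by rfl, pt_at_zero] at this
  simp [zero] at this

theorem marker_mem_iff (k : ℕ) : marker k ∈ limitLanguage mu2 ↔ Halts k := by
  unfold limitLanguage
  rw [Set.mem_ofPred_eq]
  have hmap : ∀ n, mu2.map (F^[n]) = mix (fun j => (comp j).map (F^[n])) := fun n =>
    mix_map _ (measurable_F.iterate n)
  have hprob : ∀ n j, IsProbabilityMeasure ((comp j).map (F^[n])) := fun n j =>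
    Measure.isProbabilityMeasure_map (measurable_F.iterate n).aemeasurable
  constructor
  · intro h
    by_contra hk
    apply h
    -- every component tends to zero on the marker
    have hreal : Tendsto (fun n => ((mu2.map (F^[n])) (cyl (marker k))).toReal) atTop (𝓝 0) := by
      have h1 : (fun n => ((mu2.map (F^[n])) (cyl (marker k))).toReal) =
          fun n => ∑' j, wt j * (((comp j).map (F^[n])) (cyl (marker k))).toReal := by
        funext n
        rw [hmap]
        exact mix_toReal _ (measurableSet_cyl _)
      rw [h1]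
      have h0 : (0 : ℝ) = ∑' _ : ℕ, (0 : ℝ) := by simp
      rw [h0]
      apply tendsto_tsum_of_dominated_convergence (bound := wt) hasSum_wt.summable
      · intro j
        apply tendsto_const_nhds.congr'
        by_cases hj : H j.unpair.1 j.unpair.2
        · have hne : k ≠ j.unpair.1 := by
            rintro rfl
            exact hk ⟨_, hj⟩
          filter_upwards with n
          have : comp j = theta j.unpair.1 := by unfold comp; rw [if_pos hj]
          rw [this, theta_marker_ne hne]
          simp
        · filter_upwards [eventually_ge_atTop (2 ^ j)] with n hn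
          have : comp j = lam (2 ^ j) := by unfold comp; rw [if_neg hj]
          rw [this, lam_two_pow_F hn, Measure.dirac_apply' _ (measurableSet_cyl _),
            Set.indicator_of_notMem (zero_not_mem_marker k)]
          simp
      · filter_upwards with n j
        rw [Real.norm_of_nonneg (mul_nonneg (wt_pos j).le (measure_toReal_nonneg _ _))]
        have h1 := measure_toReal_le_one ((comp j).map (F^[n])) (cyl (marker k))
        nlinarith [wt_pos j]
    have hprob2 : ∀ n, IsProbabilityMeasure (mu2.map (F^[n])) := fun n =>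
      Measure.isProbabilityMeasure_map (measurable_F.iterate n).aemeasurable
    have h2 := (ENNReal.tendsto_toReal_iff (fun n => measure_ne_top (mu2.map (F^[n])) _)
      (by simp : (0 : ℝ≥0∞) ≠ ∞)).1 (by simpa using hreal)
    exact h2
  · rintro ⟨s, hs⟩ ht
    -- the component with index (k, s)
    set j := Nat.pair k s with hj
    have hcomp : comp j = theta k := by
      unfold comp
      rw [hj, Nat.unpair_pair]
      simp only
      rw [if_pos hs]
    have hlow : ∀ m : ℕ, ENNReal.ofReal (wt j) * theta k (cyl (marker k)) ≤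
        (mu2.map (F^[2 ^ k * m])) (cyl (marker k)) := by
      intro m
      rw [hmap, mix_apply _ (measurableSet_cyl _)]
      have := ENNReal.le_tsum (f := fun i => ENNReal.ofReal (wt i) *
        ((comp i).map (F^[2 ^ k * m])) (cyl (marker k))) j
      refine le_trans (le_of_eq ?_) this
      rw [hcomp, theta_map_F_mul]
    have hpos : ENNReal.ofReal (wt j) * theta k (cyl (marker k)) ≠ 0 := by
      apply mul_ne_zero
      · rw [Ne, ENNReal.ofReal_eq_zero, not_le]
        exact wt_pos j
      · exact theta_marker_self k
    have hsub : Tendsto (fun m : ℕ => 2 ^ k * m) atTop atTop :=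
      tendsto_id.const_mul_atTop' (by positivity)
    have h3 := ht.comp hsub
    have h4 := ge_of_tendsto' h3 hlow
    exact hpos (le_antisymm h4 bot_le)

theorem primrec_marker : Primrec marker := by
  unfold marker
  apply Primrec.list_map
  · exact Primrec.list_range.comp (Primrec.succ.comp
      (Primrec.nat_mul.comp (Primrec.const 3) (primrec₂_pow.comp (Primrec.const 2) Primrec.id)))
  · exact primrec_ptn

theorem limitLanguage_not_computable :
    ¬ ComputablePred (fun w => w ∈ limitLanguage mu2) := by
  rintro ⟨hd, hc⟩
  apply not_computable_halts (fun k => @decide _ (hd (marker k)))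
  · exact hc.comp primrec_marker.to_comp
  · intro k
    rw [@decide_eq_true_iff _ (hd (marker k))]
    exact marker_mem_iff k

end Pool.Agent.Lib.MP_02be1f_lc
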